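import Pool.Agent.Y715.T.RecG

/-!
# Project SM, SUP: the supplementary law of cubic reciprocity for `√-3`
-/

set_option autoImplicit false
set_option linter.unusedSectionVars false

namespace Pool.Agent.N678.SM.Sup

open Pool.Agent.Y692.QS
open Pool.Agent.Y715.T.Rec (cs nn)
open Pool.Agent.Y715.T.RecG
open scoped Classical

/-- the first label -/
def nz (α : Ei) : ZMod 3 := (((nr α - 1) / 3 : ℤ) : ZMod 3)

lemma cs_w {ρ : Ei} (h : Pq ρ) : cs ρ w = nz ρ := by
  refine cs_of h.prime h.norm ?_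
  have h1 : 0 ≤ nr ρ := nr_nonneg ρ
  have h2 : nr ρ ≠ 0 := fun h' => h.prime.ne_zero (nr_zero_iff.1 h')
  have h3 : ((nn ρ : ℕ) : ℤ) = (nr ρ - 1) / 3 := by
    unfold nn
    omega
  have h4 : ((nn ρ : ℕ) : ZMod 3) = nz ρ := by
    unfold nz
    rw [← h3]
    push_cast
    rfl
  have h5 : w ^ nn ρ = w ^ (nz ρ).val := by
    rw [← h4, ZMod.val_natCast]
    conv_lhs => rw [← Nat.div_add_mod (nn ρ) 3, pow_add, pow_mul, w_cube, one_pow, one_mul]
  rw [h5, sub_self]
  exact dvd_zero _

/-- the norm of an element that is one modulo three -/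
lemma nr_one_mod {α : Ei} (h : (3 : Ei) ∣ α - 1) : ∃ a : ℤ, nr α = 1 + 3 * a := by
  have h8 : (3 : ℤ) ∣ (α - 1).re ∧ (3 : ℤ) ∣ (α - 1).im := by
    have : (((3 : ℤ) : Ei)) ∣ α - 1 := by exact_mod_cast h
    exact int_dvd.1 this
  rw [QuadraticAlgebra.re_sub, QuadraticAlgebra.im_sub] at h8
  have e1 : (1 : Ei).re = 1 := rfl
  have e2 : (1 : Ei).im = 0 := rfl
  rw [e1, e2, sub_zero] at h8
  obtain ⟨⟨x, hx⟩, ⟨y, hy⟩⟩ := h8
  have hre : α.re = 1 + 3 * x := by omega
  refine ⟨2 * x + 3 * x ^ 2 - (1 + 3 * x) * y + 3 * y ^ 2, ?_⟩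
  unfold nr
  rw [hre, hy]
  ring

lemma nz_of {α : Ei} {a : ℤ} (h : nr α = 1 + 3 * a) : nz α = (a : ZMod 3) := by
  unfold nz
  rw [h]
  congr 1
  omega

lemma nz_mul {α β : Ei} (h : (3 : Ei) ∣ α - 1) (h' : (3 : Ei) ∣ β - 1) :
    nz (α * β) = nz α + nz β := by
  obtain ⟨a, ha⟩ := nr_one_mod h
  obtain ⟨b, hb⟩ := nr_one_mod h'
  have hab : nr (α * β) = 1 + 3 * (a + b + 3 * (a * b)) := by
    rw [nr_mul, ha, hb]
    ring
  rw [nz_of ha, nz_of hb, nz_of hab]
  push_cast
  have h3 : (3 : ZMod 3) = 0 := rfl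
  rw [h3]
  ring

lemma nz_one : nz 1 = 0 := by
  have : nr (1 : Ei) = 1 + 3 * 0 := by rw [nr_one]; norm_num
  rw [nz_of this]
  norm_num

lemma nz_star (α : Ei) : nz (star α) = nz α := by
  unfold nz
  rw [nr_star]

/-! ### primary primes -/

lemma unit_one {u : Ei} (hu : IsUnit u) (h : (3 : Ei) ∣ u - 1) : u = 1 := by
  rw [← ns_unit hu]
  exact (ns_fix h).symm

lemma pq_eq {ρ π : Ei} (h : Pq ρ) (h' : Pq π) (hd : ρ ∣ π) : ρ = π := by
  obtain ⟨u, hu⟩ := hd
  have h1 : IsUnit u := by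
    rcases h'.prime.irreducible.isUnit_or_isUnit hu with h2 | h2
    · exact absurd h2 h.prime.not_isUnit
    · exact h2
  have h2 : (3 : Ei) ∣ u - 1 := by
    have h3 := h'.three
    rw [hu] at h3
    have e : u - 1 = (ρ * u - 1) - (ρ - 1) * u := by ring
    rw [e]
    exact dvd_sub h3 (Dvd.dvd.mul_right h.three _)
  rw [hu, unit_one h1 h2, mul_one]

lemma dvd_star {a b : Ei} (h : a ∣ b) : star a ∣ star b := by
  obtain ⟨c, rfl⟩ := h
  exact ⟨star c, by rw [star_mul]; ring⟩

lemma dvd_star_iff {a b : Ei} : star a ∣ b ↔ a ∣ star b := by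
  constructor
  · intro h
    have := dvd_star h
    rwa [star_star] at this
  · intro h
    have := dvd_star h
    rwa [star_star] at this

lemma star_int (m : ℤ) : star (m : Ei) = m := by
  ext
  · rw [star_re]
    simp
  · rw [star_im]
    simp

lemma star_three : star (3 : Ei) = 3 := by
  have := star_int 3
  exact_mod_cast this

lemma pq_star {ρ : Ei} (h : Pq ρ) : Pq (star ρ) := by
  refine ⟨⟨?_, ?_, ?_⟩, ?_⟩
  · intro h0
    exact h.prime.ne_zero (star_eq_zero.1 h0)
  · intro h0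
    rw [isUnit_iff, nr_star, ← isUnit_iff] at h0
    exact h.prime.not_isUnit h0
  · intro a b hab
    rw [dvd_star_iff, star_mul, mul_comm] at hab
    rcases h.prime.dvd_or_dvd hab with h1 | h1
    · left
      rwa [dvd_star_iff]
    · right
      rwa [dvd_star_iff]
  · have := dvd_star h.three
    rwa [star_three, star_sub, star_one] at this

lemma star_w : star w = w ^ 2 := by decide

lemma cs_star {ρ : Ei} (h : Pq ρ) {y : Ei} (hy : ¬ ρ ∣ y) : cs (star ρ) (star y) = - cs ρ y := by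
  apply cs_of (pq_star h).prime (pq_star h).norm
  have h1 := dvd_star (cs_spec h.prime h.norm hy)
  have h2 : nn (star ρ) = nn ρ := by
    unfold nn
    rw [nr_star]
  have h3 : ∀ c : ZMod 3, star (w ^ c.val) = w ^ (-c).val := by decide
  rw [star_sub, star_pow, h3] at h1
  rw [h2]
  exact h1

/-- the factorization into primary primes -/
lemma exists_fac {x : Ei} (hx : (3 : Ei) ∣ x - 1) :
    ∃ s : Multiset Ei, (∀ ρ ∈ s, Pq ρ) ∧ s.prod = x := by
  have hx0 : x ≠ 0 := by
    rintro rfl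
    obtain ⟨a, ha⟩ := nr_one_mod hx
    have : nr (0 : Ei) = 0 := nr_zero_iff.2 rfl
    omega
  obtain ⟨f, hf, hfD⟩ := UniqueFactorizationMonoid.exists_prime_factors x hx0
  have hf3 : ∀ b ∈ f, ¬ (3 : ℤ) ∣ nr b := by
    intro b hb hb3
    obtain ⟨c, hc⟩ := (Multiset.dvd_prod hb).trans hfD.dvd
    obtain ⟨a, ha⟩ := nr_one_mod hx
    rw [hc, nr_mul] at ha
    have : (3 : ℤ) ∣ nr b * nr c := Dvd.dvd.mul_right hb3 _
    rw [ha] at this
    omega
  refine ⟨f.map ns, ?_, ?_⟩
  · intro a ha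
    rw [Multiset.mem_map] at ha
    obtain ⟨b, hb, rfl⟩ := ha
    refine ⟨?_, ns_one (hf3 b hb)⟩
    have h1 : IsUnit (star (ep b)) := IsUnit.of_mul_eq_one _ (ep_cases b (hf3 b hb)).2
    obtain ⟨u, hu⟩ := h1
    have h2 : Associated b (ns b) := by
      refine ⟨u, ?_⟩
      unfold ns
      rw [hu, mul_comm]
    exact h2.prime (hf b hb)
  · have h1 : ∀ g : Multiset Ei, (g.map ns).prod = ns g.prod := by
      intro g
      induction g using Multiset.induction_on with
      | empty => simp [ns_unit isUnit_one]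
      | cons a g ih => rw [Multiset.map_cons, Multiset.prod_cons, Multiset.prod_cons, ih, ns_mul]
    obtain ⟨u, hu⟩ := hfD
    rw [h1]
    have h2 : ns x = ns f.prod := by rw [← hu, ns_mul, ns_unit u.isUnit, mul_one]
    rw [← h2]
    exact ns_fix hx

lemma three_prod {s : Multiset Ei} (hs : ∀ ρ ∈ s, Pq ρ) : (3 : Ei) ∣ s.prod - 1 := by
  induction s using Multiset.induction_on with
  | empty => simp
  | cons a g ih =>
    rw [Multiset.prod_cons]
    have e : a * g.prod - 1 = (a - 1) * g.prod + (g.prod - 1) := by ring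
    rw [e]
    exact dvd_add (Dvd.dvd.mul_right (hs a (Multiset.mem_cons_self _ _)).three _)
      (ih fun ρ hρ => hs ρ (Multiset.mem_cons_of_mem hρ))

lemma nz_prod {s : Multiset Ei} (hs : ∀ ρ ∈ s, Pq ρ) : nz s.prod = (s.map nz).sum := by
  induction s using Multiset.induction_on with
  | empty => simp [nz_one]
  | cons a g ih =>
    have h1 : ∀ ρ ∈ g, Pq ρ := fun ρ hρ => hs ρ (Multiset.mem_cons_of_mem hρ)
    rw [Multiset.prod_cons, Multiset.map_cons, Multiset.sum_cons, ← ih h1]
    exact nz_mul (hs a (Multiset.mem_cons_self _ _)).three (three_prod h1)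

lemma cs_mprod {π : Ei} (h : Pq π) {s : Multiset Ei} (hs : ¬ π ∣ s.prod) :
    cs π s.prod = (s.map fun ρ => cs π ρ).sum := by
  induction s using Multiset.induction_on with
  | empty => simp [cs_one h.prime h.norm]
  | cons a g ih =>
    rw [Multiset.prod_cons] at hs ⊢
    rw [Multiset.map_cons, Multiset.sum_cons,
      cs_mul h.prime h.norm (fun h1 => hs (Dvd.dvd.mul_right h1 _))
        (fun h1 => hs (Dvd.dvd.mul_left h1 _)), ih (fun h1 => hs (Dvd.dvd.mul_left h1 _))]

lemma star_mprod (s : Multiset Ei) : star s.prod = (s.map star).prod := by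
  induction s using Multiset.induction_on with
  | empty => simp
  | cons a g ih =>
    rw [Multiset.prod_cons, Multiset.map_cons, Multiset.prod_cons, star_mul, ih, mul_comm]

/-- reciprocity for a rational integer `a` and `π = a + m y` -/
lemma main1 {π y : Ei} (h : Pq π) {a m : ℤ} (ha3 : (3 : Ei) ∣ (a : Ei) - 1) (ha : ¬ π ∣ (a : Ei))
    (hπ : π = a + m * y) (v : Ei → ZMod 3)
    (hv : ∀ ρ, Pq ρ → ¬ ρ ∣ y → ¬ star ρ ∣ y → cs ρ y + cs (star ρ) y = v ρ) :
    ∃ s : Multiset Ei, (∀ ρ ∈ s, Pq ρ) ∧ s.prod = a ∧ 2 * cs π a = (s.map v).sum := by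
  obtain ⟨s, hs, hsa⟩ := exists_fac ha3
  refine ⟨s, hs, hsa, ?_⟩
  have hsa' : (s.map star).prod = a := by rw [← star_mprod, hsa, star_int]
  have e1 : cs π a = (s.map fun ρ => cs π ρ).sum := by
    rw [← cs_mprod h (by rw [hsa]; exact ha), hsa]
  have e2 : cs π a = (s.map fun ρ => cs π (star ρ)).sum := by
    have := cs_mprod h (s := s.map star) (by rw [hsa']; exact ha)
    rw [hsa', Multiset.map_map] at this
    exact this
  have e3 : 2 * cs π a = (s.map fun ρ => cs π ρ + cs π (star ρ)).sum := by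
    rw [Multiset.sum_map_add, ← e1, ← e2]
    ring
  rw [e3]
  congr 1
  apply Multiset.map_congr rfl
  intro ρ hρ
  have hρq := hs ρ hρ
  have hρa : ρ ∣ (a : Ei) := by rw [← hsa]; exact Multiset.dvd_prod hρ
  have hρa' : star ρ ∣ (a : Ei) := by rw [dvd_star_iff, star_int]; exact hρa
  -- the norms are different
  have hne : nr π ≠ nr ρ := by
    intro hn
    have h1 : ρ ∣ π * star π := by
      rw [mul_star, hn, ← mul_star]
      exact Dvd.intro _ rfl
    rcases hρq.prime.dvd_or_dvd h1 with h2 | h2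
    · rw [pq_eq hρq h h2] at hρa
      exact ha hρa
    · rw [pq_eq hρq (pq_star h) h2, star_star] at hρa'
      exact ha hρa'
  have hne' : nr π ≠ nr (star ρ) := by rw [nr_star]; exact hne
  have hρπ : ¬ ρ ∣ π := not_dvd h hρq hne
  have hρπ' : ¬ star ρ ∣ π := not_dvd h (pq_star hρq) hne'
  have k1 : π - m * y = a := by rw [hπ]; ring
  have c1 : ¬ ρ ∣ (m : Ei) * y := by
    intro h1
    apply hρπ
    rw [hπ]
    exact dvd_add hρa h1
  have c2 : ¬ star ρ ∣ (m : Ei) * y := by
    intro h1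
    apply hρπ'
    rw [hπ]
    exact dvd_add hρa' h1
  have m1 : ¬ ρ ∣ (m : Ei) := fun h1 => c1 (Dvd.dvd.mul_right h1 _)
  have m2 : ¬ star ρ ∣ (m : Ei) := fun h1 => c2 (Dvd.dvd.mul_right h1 _)
  have y1 : ¬ ρ ∣ y := fun h1 => c1 (Dvd.dvd.mul_left h1 _)
  have y2 : ¬ star ρ ∣ y := fun h1 => c2 (Dvd.dvd.mul_left h1 _)
  have f1 : cs π ρ = cs ρ m + cs ρ y := by
    rw [← cs_comm h hρq hne, cs_congr hρq.prime hρq.norm hρπ (y := m * y) (by rw [k1]; exact hρa),
      cs_mul hρq.prime hρq.norm m1 y1]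
  have f2 : cs π (star ρ) = cs (star ρ) m + cs (star ρ) y := by
    rw [← cs_comm h (pq_star hρq) hne',
      cs_congr (pq_star hρq).prime (pq_star hρq).norm hρπ' (y := m * y) (by rw [k1]; exact hρa'),
      cs_mul (pq_star hρq).prime (pq_star hρq).norm m2 y2]
  have f3 : cs (star ρ) (m : Ei) = - cs ρ m := by
    have := cs_star hρq m1
    rwa [star_int] at this
  rw [f1, f2, f3, ← hv ρ hρq y1 y2]
  ring

lemma lam_eq : (⟨1, 2⟩ : Ei) = 1 + 2 * w := by decide

lemma one_sub_w : 1 - w = w ^ 2 * (⟨1, 2⟩ : Ei) := by decide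

lemma star_wm : star (w - 1) = -(w ^ 2 * (w - 1)) := by decide

theorem main (π : Ei) (h : Pq π) : cs π ⟨1, 2⟩ = - ((π.im / 3 : ℤ) : ZMod 3) := by
  have h2ne : (2 : ZMod 3) ≠ 0 := by decide
  have h8 : (3 : ℤ) ∣ (π - 1).re ∧ (3 : ℤ) ∣ (π - 1).im := by
    have : (((3 : ℤ) : Ei)) ∣ π - 1 := by exact_mod_cast h.three
    exact int_dvd.1 this
  rw [QuadraticAlgebra.re_sub, QuadraticAlgebra.im_sub] at h8
  have e1 : (1 : Ei).re = 1 := rfl
  have e2 : (1 : Ei).im = 0 := rfl
  rw [e1, e2, sub_zero] at h8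
  obtain ⟨⟨m, hm⟩, ⟨n, hn⟩⟩ := h8
  have hre : π.re = 1 + 3 * m := by omega
  have hdiv : π.im / 3 = n := by omega
  rw [hdiv]
  have hw : IsUnit w := by rw [isUnit_iff]; decide
  have hwn : ∀ ρ : Ei, Pq ρ → ¬ ρ ∣ w := fun ρ hρ hd => hρ.prime.not_isUnit (isUnit_of_dvd_unit hd hw)
  have hl3 : ∀ ρ : Ei, Pq ρ → ¬ ρ ∣ (⟨1, 2⟩ : Ei) := by
    intro ρ hρ hd
    apply hρ.norm
    have : (3 : Ei) = -((⟨1, 2⟩ : Ei) * ⟨1, 2⟩) := by decide
    rw [this, dvd_neg]
    exact Dvd.dvd.mul_right hd _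
  by_cases hn0 : n = 0
  · have hst : star π = π := by
      ext
      · rw [star_re, hn, hn0]
        ring
      · rw [star_im, hn, hn0]
        ring
    have h1 := cs_star h (hl3 π h)
    have h2 : star (⟨1, 2⟩ : Ei) = - ⟨1, 2⟩ := by decide
    rw [hst, h2, cs_neg h.prime h.norm (hl3 π h)] at h1
    have h3 : (2 : ZMod 3) * cs π ⟨1, 2⟩ = 0 := by linear_combination h1
    rw [(mul_eq_zero.1 h3).resolve_left h2ne, hn0]
    norm_num
  · -- the general case
    have heta : π = (π.re : Ei) + (π.im : Ei) * w := eta π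
    have hstne : star π ≠ π := by
      intro hst
      have := congrArg QuadraticAlgebra.im hst
      rw [star_im, hn] at this
      omega
    have hb : ¬ π ∣ (π.im : Ei) := by
      intro hb1
      have hb2 : star π ∣ (π.im : Ei) := by rw [dvd_star_iff, star_int]; exact hb1
      have ha1 : π ∣ (π.re : Ei) := by
        have : (π.re : Ei) = π - (π.im : Ei) * w := eq_sub_of_add_eq heta.symm
        rw [this]
        exact dvd_sub (dvd_refl _) (Dvd.dvd.mul_right hb1 _)
      have ha2 : star π ∣ (π.re : Ei) := by rw [dvd_star_iff, star_int]; exact ha1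
      have key : ∀ x : Ei, π ∣ x → star π ∣ x → π * star π ∣ x := by
        rintro x ⟨c, rfl⟩ hx
        rcases (pq_star h).prime.dvd_or_dvd hx with h1 | h1
        · exact absurd (pq_eq (pq_star h) h h1) hstne
        · exact mul_dvd_mul_left _ h1
      have h1 : π * star π ∣ π := by
        conv_rhs => rw [heta]
        exact dvd_add (key _ ha1 ha2) (Dvd.dvd.mul_right (key _ hb1 hb2) _)
      obtain ⟨c, hc⟩ := h1
      have h2 : star π * c = 1 := by
        have : π * (star π * c) = π * 1 := by rw [mul_one, ← mul_assoc]; exact hc.symm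
        exact mul_left_cancel₀ h.prime.ne_zero this
      exact (pq_star h).prime.not_isUnit (IsUnit.of_mul_eq_one _ h2)
    have hbw : ¬ π ∣ (π.im : Ei) * w := by
      intro h1
      rcases h.prime.dvd_or_dvd h1 with h2 | h2
      · exact hb h2
      · exact hwn π h h2
    have h1w : ¬ π ∣ (1 - w) := by
      rw [one_sub_w]
      intro h1
      rcases h.prime.dvd_or_dvd h1 with h2 | h2
      · exact hwn π h (h.prime.dvd_of_dvd_pow h2)
      · exact hl3 π h h2
    have ha : ¬ π ∣ (π.re : Ei) := by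
      intro h1
      apply hbw
      have : (π.im : Ei) * w = π - (π.re : Ei) := by rw [eq_sub_iff_add_eq, add_comm]; exact heta.symm
      rw [this]
      exact dvd_sub (dvd_refl _) h1
    have hab : ¬ π ∣ ((π.re + π.im : ℤ) : Ei) := by
      intro h1
      have e : (π.im : Ei) * (1 - w) = ((π.re + π.im : ℤ) : Ei) - π := by
        rw [eq_sub_iff_add_eq]
        push_cast
        linear_combination heta
      have h2 : π ∣ (π.im : Ei) * (1 - w) := by
        rw [e]
        exact dvd_sub h1 (dvd_refl _)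
      rcases h.prime.dvd_or_dvd h2 with h3 | h3
      · exact hb h3
      · exact h1w h3
    have h3z : (3 : ZMod 3) = 0 := rfl
    -- the labels
    have na : nz (π.re : Ei) = 2 * (m : ZMod 3) := by
      have : nr (π.re : Ei) = 1 + 3 * (2 * m + 3 * m ^ 2) := by
        rw [nr_int, hre]
        ring
      rw [nz_of this]
      push_cast
      rw [h3z]
      ring
    have na' : nz ((π.re + π.im : ℤ) : Ei) = 2 * ((m : ZMod 3) + n) := by
      have : nr ((π.re + π.im : ℤ) : Ei) = 1 + 3 * (2 * (m + n) + 3 * (m + n) ^ 2) := by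
        rw [nr_int, hre, hn]
        ring
      rw [nz_of this]
      push_cast
      rw [h3z]
      ring
    have np : nz π = 2 * (m : ZMod 3) - n := by
      have : nr π = 1 + 3 * (2 * m + 3 * m ^ 2 - n * (1 + 3 * m) + 3 * n ^ 2) := by
        unfold nr
        rw [hre, hn]
        ring
      rw [nz_of this]
      push_cast
      rw [h3z]
      ring
    -- the first use of reciprocity
    have g1 : 2 * cs π (π.re : Ei) = 2 * nz (π.re : Ei) := by
      obtain ⟨s, hs, hsa, hsum⟩ := main1 (y := w) h (a := π.re) (m := π.im) (by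
        have : ((3 : ℤ) : Ei) ∣ ((π.re - 1 : ℤ) : Ei) := by rw [int_dvd_int]; exact ⟨m, hm⟩
        push_cast at this
        exact this) ha heta (fun ρ => 2 * nz ρ) (by
        intro ρ hρ _ _
        rw [cs_w hρ, cs_w (pq_star hρ), nz_star]
        ring)
      rw [hsum, Multiset.sum_map_mul_left, ← nz_prod hs, hsa]
    -- the second use of reciprocity
    have g2 : 2 * cs π ((π.re + π.im : ℤ) : Ei) = nz ((π.re + π.im : ℤ) : Ei) := by
      obtain ⟨s, hs, hsa, hsum⟩ := main1 (y := w - 1) h (a := π.re + π.im) (m := π.im) (by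
        have : ((3 : ℤ) : Ei) ∣ ((π.re + π.im - 1 : ℤ) : Ei) := by
          rw [int_dvd_int]
          exact ⟨m + n, by rw [hn]; omega⟩
        push_cast at this ⊢
        exact this) hab (by
        push_cast
        linear_combination heta) (fun ρ => nz ρ) (by
        intro ρ hρ y1 y2
        have k1 := cs_star hρ y1
        have k2 : ¬ star ρ ∣ w ^ 2 := fun hd => hwn _ (pq_star hρ) ((pq_star hρ).prime.dvd_of_dvd_pow hd)
        have k3 : ¬ star ρ ∣ w ^ 2 * (w - 1) := by
          intro hd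
          rcases (pq_star hρ).prime.dvd_or_dvd hd with h1 | h1
          · exact k2 h1
          · exact y2 h1
        rw [star_wm, cs_neg (pq_star hρ).prime (pq_star hρ).norm k3,
          cs_mul (pq_star hρ).prime (pq_star hρ).norm k2 y2,
          cs_pow (pq_star hρ).prime (pq_star hρ).norm (hwn _ (pq_star hρ)), cs_w (pq_star hρ),
          nz_star] at k1
        push_cast at k1
        linear_combination k1 - nz ρ * h3z)
      rw [hsum, ← nz_prod hs, hsa]
    have g3 : cs π ((π.im : Ei) * w) = cs π (π.re : Ei) := by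
      rw [cs_congr h.prime h.norm hbw (y := -(π.re : Ei)) (by
        have : (π.im : Ei) * w - -(π.re : Ei) = π := by linear_combination -heta
        rw [this]), cs_neg h.prime h.norm ha]
    have hw1 : ¬ π ∣ w := hwn π h
    have g4 : cs π ((π.im : Ei) * w) = cs π (π.im : Ei) + nz π := by
      rw [cs_mul h.prime h.norm hb hw1, cs_w h]
    have g5 : cs π ((π.re + π.im : ℤ) : Ei) = cs π (π.im : Ei) + cs π (1 - w) := by
      rw [← cs_mul h.prime h.norm hb h1w]
      refine cs_congr h.prime h.norm hab ?_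
      have : ((π.re + π.im : ℤ) : Ei) - (π.im : Ei) * (1 - w) = π := by
        push_cast
        linear_combination -heta
      rw [this]
    have g6 : cs π (1 - w) = 2 * nz π + cs π ⟨1, 2⟩ := by
      rw [one_sub_w, cs_mul h.prime h.norm (fun hd => hw1 (h.prime.dvd_of_dvd_pow hd)) (hl3 π h),
        cs_pow h.prime h.norm hw1, cs_w h]
      push_cast
      ring
    have g7 : cs π (π.re : Ei) = nz (π.re : Ei) := mul_left_cancel₀ h2ne g1
    rw [na] at g7
    rw [na'] at g2
    rw [np] at g4 g6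
    linear_combination -g6 - g5 + g4 - g3 - g7 + 2 * g2 + (2 * (n : ZMod 3) - cs π ((π.re + π.im : ℤ) : Ei)) * h3z

end Pool.Agent.N678.SM.Sup
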