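import Pool.Agent.N678.SM.Sup
import Pool.Agent.N848.SM.Stm

namespace Pool.Agent.N678.SM

theorem t_SUP : Pool.Agent.N848.SM.S_SUP := fun π h => Pool.Agent.N678.SM.Sup.main π h

end Pool.Agent.N678.SM
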